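import Pool.Agent.helper92.VC.Spec

/-!
# Unions of sets of tensors satisfying Nisan's condition (row UNI)
-/

universe u

namespace Pool.Agent.helper92.VC

/-- Finite unions and dimensions. -/
theorem UNI_dim {ι : Type} {K : Type u} [Field K] {w m : ℕ}
    (S : Fin m → Set ((ι → ℕ) → K)) (h : ∀ i, DimLE K w (S i)) :
    DimLE K (m * w) (⋃ i, S i) := by
  choose g hg using h
  refine ⟨fun t => g (finProdFinEquiv.symm t).1 (finProdFinEquiv.symm t).2, ?_⟩
  intro T hT
  obtain ⟨i, hi⟩ := Set.mem_iUnion.1 hT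
  have h1 := hg i hi
  have h2 : Set.range (g i) ⊆
      Set.range (fun t : Fin (m * w) => g (finProdFinEquiv.symm t).1 (finProdFinEquiv.symm t).2) := by
    rintro _ ⟨j, rfl⟩
    refine ⟨finProdFinEquiv (i, j), ?_⟩
    show g (finProdFinEquiv.symm (finProdFinEquiv (i, j))).1
      (finProdFinEquiv.symm (finProdFinEquiv (i, j))).2 = g i j
    rw [Equiv.symm_apply_apply]
  exact Submodule.span_mono h2 h1

/-- **UNI**: finite unions. -/
theorem UNI : UNI_stmt.{u} := by
  intro ι _ K _ w m l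
  induction l with
  | nil =>
    intro S h
    exact UNI_dim S h
  | cons x s ih =>
    intro S h
    refine ⟨UNI_dim S fun i => (h i).1, ?_⟩
    have e : {T' | ∃ T ∈ ⋃ i, S i, ∃ j, T' = restr x j T} =
        ⋃ i, {T' | ∃ T ∈ S i, ∃ j, T' = restr x j T} := by
      ext T'
      constructor
      · rintro ⟨T, hT, j, hj⟩
        obtain ⟨i, hi⟩ := Set.mem_iUnion.1 hT
        exact Set.mem_iUnion.2 ⟨i, T, hi, j, hj⟩
      · intro hT'
        obtain ⟨i, T, hT, j, hj⟩ := Set.mem_iUnion.1 hT'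
        exact ⟨T, Set.mem_iUnion.2 ⟨i, hT⟩, j, hj⟩
    rw [e]
    exact ih _ fun i => (h i).2

end Pool.Agent.helper92.VC
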